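import Pool.Agent.R753.SJ.H

set_option autoImplicit false

/-!
Separation of faces from a point `o` in the top of a pyramid: helper file for MP_5e7226_co.
-/

namespace Pool.Agent.Helper272_PT

open scoped InnerProductSpace
open Pool.Agent.R753 Pool.Agent.R753.SJ Pool.Agent.H985.Sep Module

variable {E : Type} [NormedAddCommGroup E] [InnerProductSpace ℝ E] [FiniteDimensional ℝ E]

omit [FiniteDimensional ℝ E] in
theorem lt_of_int {K : Set E} {o u : E} (ho : o ∈ interior K) (hu : u ≠ 0) {M : ℝ}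
    (hM : ∀ y ∈ K, ⟪u, y⟫_ℝ ≤ M) : ⟪u, o⟫_ℝ < M := by
  obtain ⟨r, hr, hb⟩ := Metric.isOpen_iff.1 isOpen_interior o ho
  have hun : 0 < ‖u‖ := norm_pos_iff.2 hu
  have h1 : o + (r / (2 * ‖u‖)) • u ∈ Metric.ball o r := by
    rw [Metric.mem_ball, dist_eq_norm, add_sub_cancel_left, norm_smul, Real.norm_eq_abs,
      abs_of_pos (by positivity)]
    have : r / (2 * ‖u‖) * ‖u‖ = r / 2 := by field_simp
    rw [this]; linarith
  have h2 := hM _ (interior_subset (hb h1))
  rw [inner_add_right, inner_smul_right, real_inner_self_eq_norm_sq] at h2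
  have h3 : 0 < r / (2 * ‖u‖) * ‖u‖ ^ 2 := by positivity
  linarith

theorem main {K : Set E} (hK : Convex ℝ K) (hKc : IsCompact K) {o : E} (ho : o ∈ interior K)
    {e a : E} (ha : a ∈ K) (he : ⟪e, a - o⟫_ℝ < 0) {δ : ℝ} (hδ : 0 < δ)
    (hpyr : ∀ x ∈ K, x ∈ convexHull ℝ (insert a {y | y ∈ K ∧ δ ≤ ⟪e, y - o⟫_ℝ}))
    (hd : 2 ≤ finrank ℝ E) {n : ℕ} (hs : Sepd n (sec K o e) 0) : Sepd (n + 1) K o := by
  classical
  have he0 : e ≠ 0 := by rintro rfl; simp at he
  have hoK : o ∈ K := interior_subset ho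
  -- the decomposition
  have hC : Convex ℝ {y | y ∈ K ∧ δ ≤ ⟪e, y - o⟫_ℝ} := by
    intro x hx y hy s t hs ht hst
    refine ⟨hK hx.1 hy.1 hs ht hst, ?_⟩
    have h1 : s • x + t • y - o = s • (x - o) + t • (y - o) := by
      have : o = (s + t) • o := by rw [hst, one_smul]
      rw [smul_sub, smul_sub]
      nth_rw 1 [this]
      rw [add_smul]; abel
    rw [h1, inner_add_right, inner_smul_right, inner_smul_right]
    have h2 := mul_le_mul_of_nonneg_left hx.2 hs
    have h3 := mul_le_mul_of_nonneg_left hy.2 ht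
    have h4 : s * δ + t * δ = δ := by rw [← add_mul, hst, one_mul]
    linarith
  have hne : {y | y ∈ K ∧ δ ≤ ⟪e, y - o⟫_ℝ}.Nonempty := by
    by_contra hcon
    rw [Set.not_nonempty_iff_eq_empty] at hcon
    have h1 := hpyr o hoK
    rw [hcon] at h1
    simp only [insert_empty_eq, convexHull_singleton, Set.mem_singleton_iff] at h1
    rw [h1] at he
    simp at he
  have dec : ∀ x ∈ K, ∃ y : E, y ∈ K ∧ δ ≤ ⟪e, y - o⟫_ℝ ∧ ∃ s : ℝ, 0 ≤ s ∧ s ≤ 1 ∧
      x = (1 - s) • a + s • y := by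
    intro x hx
    have h1 := hpyr x hx
    rw [convexHull_insert hne, hC.convexHull_eq] at h1
    obtain ⟨a', ha', y, hy, hxy⟩ := mem_convexJoin.1 h1
    rw [Set.mem_singleton_iff] at ha'
    subst ha'
    obtain ⟨p, q, hp, hq, hpq, hx⟩ := hxy
    refine ⟨y, hy.1, hy.2, q, hq, by linarith, ?_⟩
    rw [← hx]
    congr 2
    linarith
  obtain ⟨H, hcard, hH0, hsep⟩ := hs
  -- the new hyperplanes
  set α : ℝ := -⟪e, a - o⟫_ℝ with hα
  have hαp : 0 < α := by rw [hα]; linarith
  let g : (WW e × ℝ) → E := fun h =>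
    (h.1 : E) + ((⟪(h.1 : E), a - o⟫_ℝ - h.2) / α) • e
  have hg : ∀ h, ⟪g h, a - o⟫_ℝ = h.2 := by
    intro h
    show ⟪(h.1 : E) + ((⟪(h.1 : E), a - o⟫_ℝ - h.2) / α) • e, a - o⟫_ℝ = h.2
    rw [inner_add_left, real_inner_smul_left]
    have h1 : ⟪e, a - o⟫_ℝ = -α := by rw [hα]; ring
    rw [h1]
    field_simp
    ring
  have hgw : ∀ h (w : WW e), ⟪g h, (w : E)⟫_ℝ = ⟪h.1, w⟫_ℝ := by
    intro h w
    show ⟪(h.1 : E) + ((⟪(h.1 : E), a - o⟫_ℝ - h.2) / α) • e, (w : E)⟫_ℝ = _
    have h1 : ⟪e, (w : E)⟫_ℝ = 0 := (Submodule.mem_orthogonal _ _).1 w.2 e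
      (Submodule.mem_span_singleton_self e)
    rw [inner_add_left, real_inner_smul_left, h1, mul_zero, add_zero]
    rfl
  have hg0 : ∀ h ∈ H, g h ≠ 0 := by
    intro h hh h0
    have h1 := hgw h h.1
    rw [h0, inner_zero_left] at h1
    exact hH0 h hh (inner_self_eq_zero.1 h1.symm)
  let T : (WW e × ℝ) → E × ℝ := fun h => (g h, ⟪g h, o⟫_ℝ + h.2 / 2)
  refine ⟨insert (e, ⟪e, o⟫_ℝ + δ / 2) (H.image T), ?_, ?_, ?_⟩
  · refine (Finset.card_insert_le _ _).trans ?_
    have := Finset.card_image_le (s := H) (f := T)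
    omega
  · intro h hh
    rcases Finset.mem_insert.1 hh with rfl | hh
    · exact he0
    · obtain ⟨h', hh', rfl⟩ := Finset.mem_image.1 hh
      exact hg0 h' hh'
  intro u x₀ hu hx₀ hmax
  set M : ℝ := ⟪u, x₀⟫_ℝ with hM
  have hoM : ⟪u, o⟫_ℝ < M := lt_of_int ho hu hmax
  have inn : ∀ (v a y : E) (s : ℝ), ⟪v, (1 - s) • a + s • y⟫_ℝ = (1 - s) * ⟪v, a⟫_ℝ + s * ⟪v, y⟫_ℝ := by
    intro v a y s
    rw [inner_add_right, inner_smul_right, inner_smul_right]
  rcases lt_or_eq_of_le (hmax a ha) with hlt | heq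
  · -- the apex is not in the face
    refine ⟨(e, ⟪e, o⟫_ℝ + δ / 2), Finset.mem_insert_self _ _, ?_, ?_⟩
    · show ⟪e, o⟫_ℝ < ⟪e, o⟫_ℝ + δ / 2
      linarith
    · intro x hx hxM
      show ⟪e, o⟫_ℝ + δ / 2 < ⟪e, x⟫_ℝ
      obtain ⟨y, hy, hyδ, s, hs0, hs1, rfl⟩ := dec x hx
      rw [inn] at hxM
      have h1 := hmax y hy
      have h2 : (1 - s) * (M - ⟪u, a⟫_ℝ) ≤ 0 := by nlinarith
      have h3 : s = 1 := by
        by_contra hne1
        have : 0 < 1 - s := by
          rcases lt_or_eq_of_le hs1 with h | h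
          · linarith
          · exact absurd h hne1
        have := mul_pos this (sub_pos.2 hlt)
        linarith
      rw [h3, sub_self, zero_smul, one_smul, zero_add]
      rw [inner_sub_right] at hyδ
      linarith
  · -- the apex is in the face
    -- points of the section
    have hz : ∀ y ∈ K, δ ≤ ⟪e, y - o⟫_ℝ → ⟪u, y⟫_ℝ = M → ∃ w : WW e, w ∈ sec K o e ∧
        ⟪u, (w : E)⟫_ℝ = M - ⟪u, o⟫_ℝ ∧ ∃ p q : ℝ, 0 < p ∧ 0 < q ∧ p + q = 1 ∧
          (w : E) = p • (a - o) + q • (y - o) := by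
      intro y hy hyδ hyM
      set β : ℝ := ⟪e, y - o⟫_ℝ with hβ
      have hβp : 0 < β := lt_of_lt_of_le hδ hyδ
      have hpq : β / (α + β) + α / (α + β) = 1 := by field_simp; ring
      have hw : (β / (α + β)) • (a - o) + (α / (α + β)) • (y - o) ∈ WW e := by
        rw [Submodule.mem_orthogonal_singleton_iff_inner_right, inner_add_right, inner_smul_right,
          inner_smul_right, ← hβ, show ⟪e, a - o⟫_ℝ = -α by rw [hα]; ring]
        field_simp
        ring
      have hsum : o + ((β / (α + β)) • (a - o) + (α / (α + β)) • (y - o)) =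
          (β / (α + β)) • a + (α / (α + β)) • y := by
        have : o = (β / (α + β) + α / (α + β)) • o := by rw [hpq, one_smul]
        rw [smul_sub, smul_sub]
        nth_rw 1 [this]
        rw [add_smul]; abel
      refine ⟨⟨_, hw⟩, ?_, ?_, β / (α + β), α / (α + β), by positivity, by positivity, hpq, rfl⟩
      · show o + ((β / (α + β)) • (a - o) + (α / (α + β)) • (y - o)) ∈ K
        rw [hsum]
        exact hK ha hy (by positivity) (by positivity) hpq
      · show ⟪u, (β / (α + β)) • (a - o) + (α / (α + β)) • (y - o)⟫_ℝ = M - ⟪u, o⟫_ℝ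
        rw [inner_add_right, inner_smul_right, inner_smul_right, inner_sub_right, inner_sub_right,
          heq, hyM, ← add_mul, hpq, one_mul]
    by_cases hex : ∃ y ∈ K, δ ≤ ⟪e, y - o⟫_ℝ ∧ ⟪u, y⟫_ℝ = M
    · obtain ⟨y₁, hy₁, hy₁δ, hy₁M⟩ := hex
      obtain ⟨w₀, hw₀, hw₀M, -⟩ := hz y₁ hy₁ hy₁δ hy₁M
      let u' : WW e := (WW e).orthogonalProjectionOnto u
      have hu'w : ∀ w : WW e, ⟪u', w⟫_ℝ = ⟪u, (w : E)⟫_ℝ := fun w =>
        (WW e).inner_orthogonalProjectionOnto_eq_of_mem_left w u |> fun h => by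
          rw [real_inner_comm, h, real_inner_comm]
      have hu' : u' ≠ 0 := by
        intro h0
        have := hu'w w₀
        rw [h0, inner_zero_left, hw₀M] at this
        linarith
      obtain ⟨h, hh, hc0, hw⟩ := hsep u' w₀ hu' hw₀ (by
        intro w hw
        rw [hu'w, hu'w, hw₀M]
        have := hmax _ hw
        rw [inner_add_right] at this
        linarith)
      rw [inner_zero_right] at hc0
      refine ⟨T h, Finset.mem_insert_of_mem (Finset.mem_image_of_mem _ hh), ?_, ?_⟩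
      · show ⟪g h, o⟫_ℝ < ⟪g h, o⟫_ℝ + h.2 / 2
        linarith
      · intro x hx hxM
        show ⟪g h, o⟫_ℝ + h.2 / 2 < ⟪g h, x⟫_ℝ
        obtain ⟨y, hy, hyδ, s, hs0, hs1, rfl⟩ := dec x hx
        have ga := hg h
        rw [inner_sub_right] at ga
        rw [inn]
        rcases eq_or_lt_of_le hs0 with h0 | h0
        · rw [← h0]
          linarith
        · rw [inn, heq] at hxM
          have hyM : ⟪u, y⟫_ℝ = M := by
            have : s * (⟪u, y⟫_ℝ - M) = 0 := by linarith
            rcases mul_eq_zero.1 this with h | h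
            · exact absurd h h0.ne'
            · linarith
          obtain ⟨w, hwK, hwM, p, q, hp, hq, hpq, hwe⟩ := hz y hy hyδ hyM
          have h1 := hw w hwK (by rw [hu'w, hu'w, hwM, hw₀M])
          rw [← hgw h w, hwe, inner_add_right, inner_smul_right, inner_smul_right, hg h,
            inner_sub_right] at h1
          have h2 : h.2 < ⟪g h, y⟫_ℝ - ⟪g h, o⟫_ℝ := by
            have : q * h.2 < q * (⟪g h, y⟫_ℝ - ⟪g h, o⟫_ℝ) := by
              have : h.2 = p * h.2 + q * h.2 := by rw [← add_mul, hpq, one_mul]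
              linarith
            exact lt_of_mul_lt_mul_left this hq.le
          nlinarith
    · -- the face is the apex
      push Not at hex
      have hfr : finrank ℝ (WW e) + 1 = finrank ℝ E := finrank_W he0
      have hnt : Nontrivial (WW e) := by
        apply Module.nontrivial_of_finrank_pos (R := ℝ)
        omega
      obtain ⟨u₁, hu₁⟩ := exists_ne (0 : WW e)
      obtain ⟨w₁, hw₁, hmax₁⟩ := (sec_compact (o := o) (e := e) hKc).exists_isMaxOn
        ⟨0, interior_subset (sec_int ho)⟩ (f := fun w => ⟪u₁, w⟫_ℝ) (by fun_prop)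
      obtain ⟨h, hh, hc0, -⟩ := hsep u₁ w₁ hu₁ hw₁ (fun y hy => hmax₁ hy)
      rw [inner_zero_right] at hc0
      refine ⟨T h, Finset.mem_insert_of_mem (Finset.mem_image_of_mem _ hh), ?_, ?_⟩
      · show ⟪g h, o⟫_ℝ < ⟪g h, o⟫_ℝ + h.2 / 2
        linarith
      · intro x hx hxM
        show ⟪g h, o⟫_ℝ + h.2 / 2 < ⟪g h, x⟫_ℝ
        obtain ⟨y, hy, hyδ, s, hs0, hs1, rfl⟩ := dec x hx
        have ga := hg h
        rw [inner_sub_right] at ga
        rcases eq_or_lt_of_le hs0 with h0 | h0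
        · rw [← h0, inn]
          linarith
        · exfalso
          rw [inn, heq] at hxM
          have : s * (⟪u, y⟫_ℝ - M) = 0 := by linarith
          rcases mul_eq_zero.1 this with h | h
          · exact absurd h h0.ne'
          · exact hex y hy hyδ (by linarith)

omit [FiniteDimensional ℝ E] in
theorem sub_of_ext {K S : Set E} (hK : Convex ℝ K) (hKc : IsCompact K) (hS : Convex ℝ S)
    (hSc : IsClosed S) (h : K.extremePoints ℝ ⊆ S) : K ⊆ S := by
  rw [← closure_convexHull_extremePoints hKc hK]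
  exact closure_minimal (convexHull_min h hS) hSc

omit [FiniteDimensional ℝ E] in
theorem halfspace {K : Set E} (hK : Convex ℝ K) (hKc : IsCompact K) {e o : E} {c : ℝ}
    (h : ∀ b ∈ K.extremePoints ℝ, c ≤ ⟪e, b - o⟫_ℝ) : ∀ x ∈ K, c ≤ ⟪e, x - o⟫_ℝ := by
  have hS : Convex ℝ {x : E | c ≤ ⟪e, x - o⟫_ℝ} := by
    intro x hx y hy s t hs ht hst
    show c ≤ ⟪e, s • x + t • y - o⟫_ℝ
    have h1 : s • x + t • y - o = s • (x - o) + t • (y - o) := by
      have : o = (s + t) • o := by rw [hst, one_smul]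
      rw [smul_sub, smul_sub]
      nth_rw 1 [this]
      rw [add_smul]; abel
    rw [h1, inner_add_right, inner_smul_right, inner_smul_right]
    have h2 := mul_le_mul_of_nonneg_left (show c ≤ ⟪e, x - o⟫_ℝ from hx) hs
    have h3 := mul_le_mul_of_nonneg_left (show c ≤ ⟪e, y - o⟫_ℝ from hy) ht
    have h4 : s * c + t * c = c := by rw [← add_mul, hst, one_mul]
    linarith
  have hSc : IsClosed {x : E | c ≤ ⟪e, x - o⟫_ℝ} :=
    isClosed_le continuous_const (by fun_prop)
  exact sub_of_ext hK hKc hS hSc h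

omit [FiniteDimensional ℝ E] in
theorem hull {K : Set E} (hK : Convex ℝ K) (hKc : IsCompact K) {e o a : E} {δ : ℝ}
    (h : ∀ b ∈ K.extremePoints ℝ, b ≠ a → δ ≤ ⟪e, b - o⟫_ℝ) :
    ∀ x ∈ K, x ∈ convexHull ℝ (insert a {y | y ∈ K ∧ δ ≤ ⟪e, y - o⟫_ℝ}) := by
  set D : Set E := {y | y ∈ K ∧ δ ≤ ⟪e, y - o⟫_ℝ} with hD
  have hDc : IsCompact D := hKc.inter_right
    (isClosed_le (f := fun _ : E => δ) (g := fun y : E => ⟪e, y - o⟫_ℝ) continuous_const (by fun_prop))
  have hDv : Convex ℝ D := by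
    intro x hx y hy s t hs ht hst
    refine ⟨hK hx.1 hy.1 hs ht hst, ?_⟩
    have h1 : s • x + t • y - o = s • (x - o) + t • (y - o) := by
      have : o = (s + t) • o := by rw [hst, one_smul]
      rw [smul_sub, smul_sub]
      nth_rw 1 [this]
      rw [add_smul]; abel
    rw [h1, inner_add_right, inner_smul_right, inner_smul_right]
    have h2 := mul_le_mul_of_nonneg_left hx.2 hs
    have h3 := mul_le_mul_of_nonneg_left hy.2 ht
    have h4 : s * δ + t * δ = δ := by rw [← add_mul, hst, one_mul]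
    linarith
  have hext : K.extremePoints ℝ ⊆ insert a D := by
    intro b hb
    by_cases hba : b = a
    · exact Or.inl hba
    · exact Or.inr ⟨hb.1, h b hb hba⟩
  rcases D.eq_empty_or_nonempty with h0 | hne
  · rw [h0] at hext ⊢
    intro x hx
    have h1 : K ⊆ {a} := sub_of_ext hK hKc (convex_singleton a) isClosed_singleton
      (by simpa using hext)
    exact subset_convexHull ℝ _ (Or.inl (h1 hx))
  · have hcl : IsClosed (convexHull ℝ (insert a D)) := by
      have hJ : convexHull ℝ (insert a D) =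
          (fun p : ℝ × E => (1 - p.1) • a + p.1 • p.2) '' (Set.Icc (0:ℝ) 1 ×ˢ D) := by
        rw [convexHull_insert hne, hDv.convexHull_eq]
        ext x
        rw [mem_convexJoin]
        constructor
        · rintro ⟨a', rfl, y, hy, p, q, hp, hq, hpq, rfl⟩
          refine ⟨(q, y), ⟨⟨hq, by linarith⟩, hy⟩, ?_⟩
          show (1 - q) • a' + q • y = p • a' + q • y
          congr 2
          linarith
        · rintro ⟨⟨q, y⟩, ⟨⟨hq, hq1⟩, hy⟩, rfl⟩
          exact ⟨a, rfl, y, hy, 1 - q, q, by linarith, hq, by ring, rfl⟩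
      rw [hJ]
      refine ((isCompact_Icc.prod hDc).image ?_).isClosed
      fun_prop
    exact fun x hx => sub_of_ext hK hKc (convex_convexHull ℝ _) hcl
      (hext.trans (subset_convexHull ℝ _)) hx

omit [FiniteDimensional ℝ E] in
theorem apex {K : Set E} (hK : Convex ℝ K) (hKc : IsCompact K) {o : E} (ho : o ∈ interior K)
    {e a : E} {δ : ℝ} (hδ : 0 < δ) (hd : 2 ≤ finrank ℝ E)
    (h : ∀ b ∈ K.extremePoints ℝ, b ≠ a → δ ≤ ⟪e, b - o⟫_ℝ) : a ∈ K ∧ ⟪e, a - o⟫_ℝ < 0 := by
  by_contra hcon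
  rw [not_and_or, not_lt] at hcon
  have h1 : ∀ b ∈ K.extremePoints ℝ, 0 ≤ ⟪e, b - o⟫_ℝ := by
    intro b hb
    by_cases hba : b = a
    · rcases hcon with hc | hc
      · exact absurd (hba ▸ hb.1) hc
      · rw [hba]; exact hc
    · exact hδ.le.trans (h b hb hba)
  have h2 := halfspace hK hKc h1
  have he : e = 0 := by
    by_contra he
    have h3 := lt_of_int ho (neg_ne_zero.2 he) (M := ⟪-e, o⟫_ℝ) (by
      intro y hy
      have := h2 y hy
      rw [inner_sub_right] at this
      rw [inner_neg_left, inner_neg_left]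
      linarith)
    exact lt_irrefl _ h3
  have h4 : K ⊆ {a} := by
    refine sub_of_ext hK hKc (convex_singleton a) isClosed_singleton ?_
    intro b hb
    by_contra hba
    have := h b hb hba
    rw [he, inner_zero_left] at this
    linarith
  have hnt : Nontrivial E := Module.nontrivial_of_finrank_pos (R := ℝ) (by omega)
  obtain ⟨u, hu⟩ := exists_ne (0 : E)
  have hoa : o = a := h4 (interior_subset ho)
  have h5 := lt_of_int ho hu (M := ⟪u, a⟫_ℝ) (by
    intro y hy
    rw [show y = a from h4 hy])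
  rw [hoa] at h5
  exact lt_irrefl _ h5

theorem main' {K : Set E} (hK : Convex ℝ K) (hKc : IsCompact K) {o : E} (ho : o ∈ interior K)
    {e a : E} {δ : ℝ} (hδ : 0 < δ) (hd : 2 ≤ finrank ℝ E)
    (h : ∀ b ∈ K.extremePoints ℝ, b ≠ a → δ ≤ ⟪e, b - o⟫_ℝ) {n : ℕ}
    (hs : Sepd n (sec K o e) 0) : Sepd (n + 1) K o :=
  main hK hKc ho (apex hK hKc ho hδ hd h).1 (apex hK hKc ho hδ hd h).2 hδ (hull hK hKc h) hd hs

theorem exists_e {K : Set E} {o a : E}
    (hout : o ∉ closure (convexHull ℝ (K.extremePoints ℝ \ {a}))) :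
    ∃ (e : E) (δ : ℝ), 0 < δ ∧ ∀ b ∈ K.extremePoints ℝ, b ≠ a → δ ≤ ⟪e, b - o⟫_ℝ := by
  obtain ⟨f, c, hf, hb⟩ := geometric_hahn_banach_point_closed (convex_convexHull ℝ _).closure
    isClosed_closure hout
  refine ⟨(InnerProductSpace.toDual ℝ E).symm f, c - f o, by linarith, fun b hbe hba => ?_⟩
  rw [InnerProductSpace.toDual_symm_apply, map_sub]
  have := hb b (subset_closure (subset_convexHull ℝ _ ⟨hbe, hba⟩))
  linarith

theorem three {K : Set E} (hK : Convex ℝ K) (hKc : IsCompact K) {o a : E} (ho : o ∈ interior K)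
    (hout : o ∉ closure (convexHull ℝ (K.extremePoints ℝ \ {a}))) (hd : finrank ℝ E = 3) :
    Sepd 5 K o := by
  obtain ⟨e, δ, hδ, h⟩ := exists_e hout
  have he0 : e ≠ 0 := by
    rintro rfl
    have := (apex hK hKc ho hδ (by omega) h).2
    simp at this
  have hf := finrank_W he0
  have hF := sec_int (e := e) ho
  refine main' hK hKc ho hδ (by omega) h (n := 4) ?_
  have hfr : finrank ℝ (WW e) = 2 := by omega
  exact sepd_of_cover hF (cover_le_two (V := WW e) hfr le_rfl
    (convex_polar (sec K o e) 0) (isCompact_polar hF)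
    (interior_polar_nonempty (sec_compact hKc) hF))

theorem four {K : Set E} (hK : Convex ℝ K) (hKc : IsCompact K) {o a : E} (ho : o ∈ interior K)
    (hout : o ∉ closure (convexHull ℝ (K.extremePoints ℝ \ {a}))) (hd : finrank ℝ E = 4) :
    Sepd 14 K o := by
  obtain ⟨e, δ, hδ, h⟩ := exists_e hout
  have he0 : e ≠ 0 := by
    rintro rfl
    have := (apex hK hKc ho hδ (by omega) h).2
    simp at this
  have hf := finrank_W he0
  have hF := sec_int (e := e) ho
  refine main' hK hKc ho hδ (by omega) h (n := 13) ?_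
  have hfr : finrank ℝ (WW e) = 3 := by omega
  exact sepd_of_cover hF (cover_13 (V := WW e) hfr
    (convex_polar (sec K o e) 0) (isCompact_polar hF)
    (interior_polar_nonempty (sec_compact hKc) hF))

theorem gen {K : Set E} (hK : Convex ℝ K) (hKc : IsCompact K) {o a : E} (ho : o ∈ interior K)
    (hout : o ∉ closure (convexHull ℝ (K.extremePoints ℝ \ {a}))) (hd : 2 ≤ finrank ℝ E) {n : ℕ}
    (hn : ∀ (e : E) (L : Set (Submodule.span ℝ {e})ᗮ), e ≠ 0 → Convex ℝ L → IsCompact L →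
      0 ∈ interior L → Sepd n L 0) : Sepd (n + 1) K o := by
  obtain ⟨e, δ, hδ, h⟩ := exists_e hout
  have he0 : e ≠ 0 := by
    rintro rfl
    have := (apex hK hKc ho hδ (by omega) h).2
    simp at this
  refine main' hK hKc ho hδ hd h (hn e _ he0 ?_ (sec_compact hKc) (sec_int ho))
  intro x hx y hy s t hs ht hst
  show o + ((s • x + t • y : (Submodule.span ℝ {e})ᗮ) : E) ∈ K
  have h1 : o + ((s • x + t • y : (Submodule.span ℝ {e})ᗮ) : E) =
      s • (o + (x : E)) + t • (o + (y : E)) := by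
    have : o = (s + t) • o := by rw [hst, one_smul]
    rw [smul_add, smul_add]
    nth_rw 1 [this]
    rw [add_smul]
    push_cast
    abel
  rw [h1]
  exact hK hx hy hs ht hst

end Pool.Agent.Helper272_PT
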